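import Pool.Agent.T9h55.KU.Spec

set_option autoImplicit false

namespace Pool.Agent.T9h55.KU

open Finset Filter Topology
open Pool.Agent.T9h55.RM (P P_prime P_lt le_P pi_P P_le_sq pi_le)

theorem pl : S_PL := by
  obtain ⟨N, hN⟩ := eventually_atTop.1 pi_le
  filter_upwards [eventually_ge_atTop (N + 2)] with k hk
  have h1 : 2 * k ≤ P k + 1 := le_P (m := k) (by omega)
  have h2 := hN (P k) (by omega)
  rw [pi_P (by omega)] at h2
  have hk0 : (0 : ℝ) < k := by
    have : 0 < k := by omega
    exact_mod_cast this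
  have hkP : (k : ℝ) ≤ P k := by
    have : k ≤ P k := by omega
    exact_mod_cast this
  have h3 : Real.log k ≤ Real.log (P k) := Real.log_le_log hk0 hkP
  have h4 : 0 < Real.log (k : ℝ) := Real.log_pos (by
    have : 1 < k := by omega
    exact_mod_cast this)
  have h5 : 0 < Real.log (P k : ℝ) := by linarith
  have h6 : (k : ℝ) * Real.log (P k) ≤ 2 * P k := by
    rw [mul_div_assoc', le_div_iff₀ h5] at h2
    exact h2
  have h7 := mul_le_mul_of_nonneg_left h3 hk0.le
  linarith

end Pool.Agent.T9h55.KU
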