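import Pool.Agent.T9h55.KU.Main

/-! Moved primes and `p_j ^ 2 - 2`: the law (helper55). -/

set_option autoImplicit false

namespace Pool.Agent.T9h55.KU

open Finset MeasureTheory ProbabilityTheory Filter Topology
open Pool.Agent.T9h55.KT
open Pool.Agent.T9h55.RM (P P_prime P_lt P_inj le_P bc exp_small P_le_sq)

universe u

/-- the indices `m` which represent `n` -/
def repset {Ω : Type*} (M : ℕ) (ξ : ℕ → Ω → ℕ) (n : ℕ) (ω : Ω) : Set ℕ :=
  {m | 1 ≤ m ∧ m < n ∧ tg (n - m) ∈ mvs M ξ ω ∧ tg m ∈ mvs M ξ ω ∧ tg (P m) ∈ mvs M ξ ω}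

/-- the moved variables -/
def mx {Ω : Type*} (M : ℕ) (ξ : ℕ → Ω → ℕ) : ℕ → Ω → ℕ := fun p ω => p + M * ξ p ω

noncomputable def TT (n : ℕ) : Finset ℕ := Ioc (n / 128) (n / 64)
noncomputable def B1 (n : ℕ) : Finset ℕ := (range (P n ^ 2 + 1)).filter fun p => p.Prime ∧ 3 * tg (n - n / 2) ≤ 4 * p
noncomputable def B2 (n : ℕ) : Finset ℕ := (range (P (n / 64) ^ 2)).filter fun p => p.Prime
noncomputable def B3 (n : ℕ) : Finset ℕ := (range (P (P (n / 64)) ^ 2)).filter fun p => p.Prime ∧ P n ^ 2 < p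
noncomputable def good {Ω : Type*} (M : ℕ) (ξ : ℕ → Ω → ℕ) (n : ℕ) (ω : Ω) : Finset ℕ :=
  hits (mx M ξ) (B3 n) (hits (mx M ξ) (B2 n) (hits (mx M ξ) (B1 n) (TT n) (fun t _ => tg (n - t)) ω) (fun t _ => tg t) ω)
    (fun t _ => tg (P t)) ω

lemma tg_lt {i j : ℕ} (hi : 1 ≤ i) (h : i ≤ j) : tg i ≤ tg j := by
  have h1 := tg_add i
  have h2 := tg_add j
  have h3 := Nat.pow_le_pow_left (P_mono hi h) 2
  omega

lemma hits_mem {Ω : Type*} {ξ : ℕ → Ω → ℕ} {B T : Finset ℕ} {v : ℕ → ℕ → ℕ} {ω : Ω} {t : ℕ} :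
    t ∈ hits ξ B T v ω ↔ t ∈ T ∧ ∃ j ∈ B, ξ j ω = v t j := by
  classical
  unfold hits miss
  simp only [mem_filter, Set.mem_ofPred_eq, not_forall, not_not, exists_prop]

lemma good_sub {Ω : Type*} (M : ℕ) (ξ : ℕ → Ω → ℕ) {n : ℕ} (hn : 128 ≤ n) (ω : Ω) :
    ((good M ξ n ω : Finset ℕ) : Set ℕ) ⊆ repset M ξ n ω := by
  intro t ht
  rw [mem_coe] at ht
  unfold good at ht
  rw [hits_mem, hits_mem, hits_mem] at ht
  obtain ⟨⟨⟨h1, p, hp, hp'⟩, p2, hp2, hp2'⟩, p3, hp3, hp3'⟩ := ht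
  unfold TT at h1
  rw [mem_Ioc] at h1
  unfold B1 at hp
  unfold B2 at hp2
  unfold B3 at hp3
  simp only [mem_filter] at hp hp2 hp3
  exact ⟨by omega, by omega, ⟨p, hp.2.1, hp'.symm⟩, ⟨p2, hp2.2, hp2'.symm⟩, ⟨p3, hp3.2.1, hp3'.symm⟩⟩

lemma repset_fin {Ω : Type*} (M : ℕ) (ξ : ℕ → Ω → ℕ) (n : ℕ) (ω : Ω) : (repset M ξ n ω).Finite :=
  (Set.finite_Iio n).subset fun _ h => h.2.1

theorem law (hu : S_PU) (hl : S_PL) (hhm : S_HM.{u}) {Ω : Type u} [MeasurableSpace Ω] {μ : Measure Ω}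
    [IsProbabilityMeasure μ] (A K M : ℕ) (hK : 1 ≤ K) (hM1 : 1 ≤ M)
    (hM : ∀ q : ℕ, q.Prime → q ∣ M → q = 2 ∨ q % 8 = 3 ∨ q % 8 = 5) (H : ℕ → ℕ) (ξ : ℕ → Ω → ℕ)
    (hH : ∀ᶠ n : ℕ in atTop, (n : ℝ) / (K * Real.log n ^ A) ≤ H n ∧ (H n : ℝ) ≤ K * n / Real.log n ^ A)
    (hm : ∀ j, Measurable (ξ j)) (hi : iIndepFun ξ μ)
    (hpr : ∀ j, 1 ≤ j → ∀ h < H j, μ.real {ω | ξ j ω = h} = 1 / (H j : ℝ)) :
    ∀ᵐ ω ∂μ, ∀ᶠ n : ℕ in atTop,
      1 / 256 * (1 / (256 * 2 ^ A * (K : ℝ) ^ 2 * M)) ^ 3 / 8 * (n / Real.log n ^ 3) ≤ (repset M ξ n ω).ncard := by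
  classical
  set g : ℝ := 1 / (256 * 2 ^ A * (K : ℝ) ^ 2 * M) with hg
  have hK1 : (1 : ℝ) ≤ K := by exact_mod_cast hK
  have hM1' : (1 : ℝ) ≤ M := by exact_mod_cast hM1
  have hden : (1 : ℝ) ≤ 2 ^ A * (K : ℝ) ^ 2 * M := by
    have h1 : (1 : ℝ) ≤ 2 ^ A := one_le_pow₀ (by norm_num)
    have h2 : (1 : ℝ) ≤ (K : ℝ) ^ 2 := one_le_pow₀ hK1
    exact one_le_mul_of_one_le_of_one_le (one_le_mul_of_one_le_of_one_le h1 h2) hM1'
  have hg0 : 0 < g := by
    rw [hg]
    positivity
  have hg1 : g ≤ 1 / 2 := by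
    rw [hg]
    apply div_le_div_of_nonneg_left (by norm_num) (by norm_num)
    linarith
  have hm' : ∀ j, Measurable (mx M ξ j) := fun j => (Measurable.of_discrete (f := fun x : ℕ => j + M * x)).comp (hm j)
  have hi' : iIndepFun (mx M ξ) μ := hi.comp (fun j x => j + M * x) fun j => Measurable.of_discrete
  obtain ⟨b0, hb0⟩ := eventually_atTop.1 (hhm Ω μ A K M hK hM1 H ξ hH hpr)
  have hcard : ∀ n : ℕ, 1000 ≤ n → (n : ℝ) / 256 ≤ #(TT n) := by
    intro n hn
    unfold TT
    rw [Nat.card_Ioc]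
    have h1 : n ≤ 256 * (n / 64 - n / 128) := by omega
    have : (n : ℝ) ≤ 256 * ((n / 64 - n / 128 : ℕ) : ℝ) := by exact_mod_cast h1
    linarith
  have ha : 0 < 1 / 256 * g ^ 3 / 32 := by positivity
  have hbc := bc (μ := μ) (B := 3) (A := fun n => {ω | (#(good M ξ n ω) : ℝ) ≤ #(TT n) * (g / Real.log n) ^ 3 / 8}) (by
    filter_upwards [sizes hu hl, exp_small ha, log_n_tendsto.eventually_ge_atTop 1, eventually_ge_atTop (128 * b0 + 1000)]
      with n hsz hexp hL hn
    obtain ⟨hs1, hs2, hs3⟩ := hsz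
    have hL0 : 0 < Real.log (n : ℝ) := by linarith
    have hn0 : (0 : ℝ) < n := by
      have : 0 < n := by omega
      exact_mod_cast this
    have hq0 : 0 ≤ g / Real.log n := by positivity
    have hq1 : g / Real.log n ≤ 1 / 2 := by
      rw [div_le_iff₀ hL0]
      linarith
    have hs1' : P (n / 64) ≤ P n := P_mono (by omega) (by omega)
    have hpow : P (n / 64) ^ 2 ≤ P n ^ 2 := Nat.pow_le_pow_left hs1' 2
    -- one target
    have key : ∀ (b : ℕ) (B : Finset ℕ), b0 ≤ b → 2 ≤ b → b ≤ n ^ 8 → Nat.Coprime b M →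
        (∀ p, 3 * b ≤ 4 * p → p ≤ b → p.Prime → p ∈ B) → g / Real.log n ≤ μ.real (miss (mx M ξ) B (fun _ => b))ᶜ := by
      intro b B h1 h1' h2 h3 h4
      have h5 := hb0 b h1 h3 B h4
      have h6 : 2 * (g / Real.log n) ≤ ∑ j ∈ B, pr μ (mx M ξ) j b := by
        have hb2 : (2 : ℝ) ≤ b := by exact_mod_cast h1'
        have hlb : Real.log b ≤ 8 * Real.log n := by
          have h6 : (b : ℝ) ≤ (n : ℝ) ^ 8 := by exact_mod_cast h2
          calc Real.log b ≤ Real.log ((n : ℝ) ^ 8) := Real.log_le_log (by linarith) h6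
            _ = 8 * Real.log n := by
              rw [Real.log_pow]
              norm_num
        have hlb0 : 0 < Real.log b := Real.log_pos (by linarith)
        have e : 2 * (g / Real.log n) = 1 / (16 * 2 ^ A * (K : ℝ) ^ 2 * M * (8 * Real.log n)) := by
          rw [hg]
          field_simp
          norm_num
        rw [e]
        refine le_trans (one_div_le_one_div_of_le (by positivity) ?_) h5
        exact mul_le_mul_of_nonneg_left hlb (by positivity)
      have h7 := hit_low hm' hi' B (fun _ => b) (σ := 2 * (g / Real.log n)) (by positivity) (by linarith) h6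
      linarith
    have hts := three_stage hm' hi' (B1 n) (B2 n) (B3 n) ?_ ?_ ?_ (TT n) (fun t _ => tg (n - t)) (fun t _ => tg t)
      (fun t _ => tg (P t)) ?_ ?_ ?_ hq0 (by linarith) ?_ ?_ ?_
    · refine hts.trans ?_
      apply mul_le_mul_of_nonneg_left _ (by norm_num)
      refine le_trans (Real.exp_le_exp.2 ?_) hexp
      have h1 := mul_le_mul_of_nonneg_right (hcard n (by omega)) (show 0 ≤ (g / Real.log n) ^ 3 / 32 by positivity)
      have h2 : 1 / 256 * g ^ 3 / 32 * (n / Real.log n ^ 3) = (n : ℝ) / 256 * ((g / Real.log n) ^ 3 / 32) := by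
        rw [div_pow]
        ring
      rw [h2]
      linarith
    · rw [disjoint_left]
      intro p hp hp'
      unfold B1 at hp
      unfold B2 at hp'
      simp only [mem_filter, mem_range] at hp hp'
      omega
    · rw [disjoint_left]
      intro p hp hp'
      unfold B1 at hp
      unfold B3 at hp'
      simp only [mem_filter, mem_range] at hp hp'
      omega
    · rw [disjoint_left]
      intro p hp hp'
      unfold B2 at hp
      unfold B3 at hp'
      simp only [mem_filter, mem_range] at hp hp'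
      omega
    · intro t ht t' ht' hne j _ h
      unfold TT at ht ht'
      rw [mem_Ioc] at ht ht'
      have := tg_inj (by omega) (by omega) h
      omega
    · intro t ht t' ht' hne j _ h
      unfold TT at ht ht'
      rw [mem_Ioc] at ht ht'
      exact hne (tg_inj (by omega) (by omega) h)
    · intro t ht t' ht' hne j _ h
      unfold TT at ht ht'
      rw [mem_Ioc] at ht ht'
      have h1 := P_two_le t
      have h2 := P_two_le t'
      exact hne (P_inj (by omega) (by omega) (tg_inj (by omega) (by omega) h))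
    · intro t ht
      unfold TT at ht
      rw [mem_Ioc] at ht
      have h1 := le_tg (j := n - t) (by omega)
      refine key (tg (n - t)) (B1 n) (by omega) (by omega) (hs3 (n - t) (by omega) (by omega)).1 (cop hM (by omega)) ?_
      intro p h2 h3 h4
      unfold B1
      rw [mem_filter, mem_range]
      have h5 : tg (n - n / 2) ≤ tg (n - t) := tg_lt (by omega) (by omega)
      have h6 := tg_add (n - t)
      have h7 : P (n - t) ^ 2 ≤ P n ^ 2 := Nat.pow_le_pow_left (P_mono (by omega) (by omega)) 2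
      exact ⟨by omega, h4, by omega⟩
    · intro t ht
      unfold TT at ht
      rw [mem_Ioc] at ht
      have h1 := le_tg (j := t) (by omega)
      refine key (tg t) (B2 n) (by omega) (by omega) (hs3 t (by omega) (by omega)).1 (cop hM (by omega)) ?_
      intro p h2 h3 h4
      unfold B2
      rw [mem_filter, mem_range]
      have h6 := tg_add t
      have h7 : P t ^ 2 ≤ P (n / 64) ^ 2 := Nat.pow_le_pow_left (P_mono (by omega) (by omega)) 2
      exact ⟨by omega, h4⟩
    · intro t ht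
      unfold TT at ht
      rw [mem_Ioc] at ht
      have h0 := P_two_le t
      have h0' := le_P (m := t) (by omega)
      have h1 := le_tg (j := P t) (by omega)
      refine key (tg (P t)) (B3 n) (by omega) (by omega) (hs3 t (by omega) (by omega)).2 (cop hM (by omega)) ?_
      intro p h2 h3 h4
      unfold B3
      rw [mem_filter, mem_range]
      have h6 := tg_add (P t)
      have h7 : P (P t) ^ 2 ≤ P (P (n / 64)) ^ 2 :=
        Nat.pow_le_pow_left (P_mono (by omega) (P_mono (by omega) (by omega))) 2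
      have h8 := hs2 t (by omega)
      exact ⟨by omega, h4, by omega⟩)
  filter_upwards [hbc] with ω hω
  filter_upwards [hω, eventually_ge_atTop 1000, log_n_tendsto.eventually_ge_atTop 1] with n h1 hn hL
  simp only [Set.mem_ofPred_eq, not_le] at h1
  have hL0 : 0 < Real.log (n : ℝ) := by linarith
  have h2 := mul_le_mul_of_nonneg_right (hcard n hn) (show 0 ≤ (g / Real.log n) ^ 3 / 8 by positivity)
  have h3 : 1 / 256 * g ^ 3 / 8 * (n / Real.log n ^ 3) = (n : ℝ) / 256 * ((g / Real.log n) ^ 3 / 8) := by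
    rw [div_pow]
    ring
  have h4 : #(good M ξ n ω) ≤ (repset M ξ n ω).ncard := by
    rw [← Set.ncard_coe_finset]
    exact Set.ncard_le_ncard (good_sub M ξ (by omega) ω) (repset_fin M ξ n ω)
  have h5 : (#(good M ξ n ω) : ℝ) ≤ ((repset M ξ n ω).ncard : ℝ) := by exact_mod_cast h4
  rw [h3]
  linarith

end Pool.Agent.T9h55.KU
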