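import Pool.Agent.T9h55.KU.Spec

/-! Moved primes and `p_j ^ 2 - 2`: assembly (helper55). -/

set_option autoImplicit false

namespace Pool.Agent.T9h55.KU

open Finset MeasureTheory ProbabilityTheory Filter Topology
open Pool.Agent.T9h55.KT
open Pool.Agent.T9h55.RM (P P_prime P_lt P_inj le_P bc exp_small P_le_sq)

variable {Ω : Type*} [MeasurableSpace Ω] {μ : Measure Ω}

/-- the moved primes -/
def mvs (M : ℕ) (ξ : ℕ → Ω → ℕ) (ω : Ω) : Set ℕ := {x | ∃ p : ℕ, p.Prime ∧ x = p + M * ξ p ω}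

/-- the target `p_j ^ 2 - 2` -/
noncomputable def tg (j : ℕ) : ℕ := P j ^ 2 - 2

lemma P_two_le (j : ℕ) : 2 ≤ P j := (P_prime j).two_le

lemma tg_add (j : ℕ) : tg j + 2 = P j ^ 2 := by
  unfold tg
  have := Nat.pow_le_pow_left (P_two_le j) 2
  omega

lemma tg_inj {j j' : ℕ} (hj : 1 ≤ j) (hj' : 1 ≤ j') (h : tg j = tg j') : j = j' := by
  have h1 := tg_add j
  have h2 := tg_add j'
  rw [h, h2] at h1
  exact P_inj hj hj' (Nat.pow_left_injective (by norm_num) h1).symm

lemma P_mono {j j' : ℕ} (hj : 1 ≤ j) (h : j ≤ j') : P j ≤ P j' := by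
  rcases h.lt_or_eq with h1 | h1
  · exact (P_lt hj h1).le
  · rw [h1]

lemma le_tg {j : ℕ} (hj : 1 ≤ j) : j ≤ tg j := by
  have h1 := tg_add j
  have h2 := le_P hj
  have h3 := P_two_le j
  nlinarith

lemma cop {M : ℕ} (hM : ∀ q : ℕ, q.Prime → q ∣ M → q = 2 ∨ q % 8 = 3 ∨ q % 8 = 5) {j : ℕ} (hj : 2 ≤ j) :
    Nat.Coprime (tg j) M := by
  apply Nat.coprime_of_dvd
  intro q hq h1 h2
  have hp := P_prime j
  have hodd : P j ≠ 2 := by
    have h3 := le_P (m := j) (by omega)
    omega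
  have h4 := tg_add j
  rcases hM q hq h2 with h | h
  · subst h
    have h5 : Odd (P j) := hp.odd_of_ne_two hodd
    have h6 : Odd (P j ^ 2) := h5.pow
    rw [← h4] at h6
    have h7 : Even (tg j) := even_iff_two_dvd.2 h1
    have h8 : Even (tg j + 2) := h7.add (by decide)
    exact (Nat.not_even_iff_odd.2 h6) h8
  · haveI : Fact q.Prime := ⟨hq⟩
    have hq2 : q ≠ 2 := by
      rintro rfl
      omega
    have h5 : IsSquare (2 : ZMod q) := by
      refine ⟨(P j : ZMod q), ?_⟩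
      have h6 : ((tg j : ℕ) : ZMod q) = 0 := (ZMod.natCast_eq_zero_iff _ _).2 h1
      have h7 : ((tg j + 2 : ℕ) : ZMod q) = ((P j ^ 2 : ℕ) : ZMod q) := by rw [h4]
      push_cast at h7
      rw [h6, zero_add, sq] at h7
      exact h7
    rw [ZMod.exists_sq_eq_two_iff hq2] at h5
    omega

lemma log_n_tendsto : Tendsto (fun k : ℕ => Real.log (k : ℝ)) atTop atTop :=
  Real.tendsto_log_atTop.comp tendsto_natCast_atTop_atTop

/-- sizes -/
lemma sizes (hu : S_PU) (hl : S_PL) : ∀ᶠ n : ℕ in atTop, 4 * P (n / 64) ^ 2 ≤ 3 * tg (n - n / 2) ∧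
    (∀ m, n / 128 < m → 4 * P n ^ 2 < 3 * tg (P m)) ∧ (∀ m, m ≤ n → 1 ≤ m → tg m ≤ n ^ 8 ∧ tg (P m) ≤ n ^ 8) := by
  obtain ⟨k1, h1⟩ := eventually_atTop.1 hu
  obtain ⟨k2, h2⟩ := eventually_atTop.1 hl
  obtain ⟨k3, h3⟩ := eventually_atTop.1 P_le_sq
  have hL := log_n_tendsto.eventually_ge_atTop 100000
  obtain ⟨k4, h4⟩ := eventually_atTop.1 hL
  filter_upwards [eventually_ge_atTop (128 * (k1 + k2 + k3 + k4 + 2) + 128), eventually_ge_atTop ((P (k3 + 1)) ^ 2 + 10)] with n hn hn'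
  have hn0 : (0 : ℝ) < n := by
    have : 0 < n := by omega
    exact_mod_cast this
  have hP1 : ∀ k : ℕ, 1 ≤ k → (2 : ℝ) * k ≤ P k + 1 := fun k hk => by exact_mod_cast le_P hk
  have hup : (P n : ℝ) ≤ 4 * n * Real.log n := h1 n (by omega)
  refine ⟨?_, ?_, ?_⟩
  · -- the small block
    have e1 : (P (n / 64) : ℝ) ≤ 4 * (n / 64 : ℕ) * Real.log (n / 64 : ℕ) := h1 _ (by omega)
    have e2 : ((n - n / 2 : ℕ) : ℝ) * Real.log (n - n / 2 : ℕ) / 2 ≤ P (n - n / 2) := h2 _ (by omega)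
    have e3 : ((n / 64 : ℕ) : ℝ) ≤ n / 64 := Nat.cast_div_le
    have e3' : (1 : ℝ) ≤ ((n / 64 : ℕ) : ℝ) := by
      have : 1 ≤ n / 64 := by omega
      exact_mod_cast this
    have e4 : (n : ℝ) / 2 ≤ ((n - n / 2 : ℕ) : ℝ) := by
      have : n ≤ 2 * (n - n / 2) := by omega
      have : (n : ℝ) ≤ 2 * ((n - n / 2 : ℕ) : ℝ) := by exact_mod_cast this
      linarith
    have e5 : Real.log (n / 64 : ℕ) ≤ Real.log (n - n / 2 : ℕ) := by
      apply Real.log_le_log (by linarith)
      have : n / 64 ≤ n - n / 2 := by omega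
      exact_mod_cast this
    have e6 : 0 ≤ Real.log (n / 64 : ℕ) := Real.log_nonneg e3'
    have e7 : 2 * (P (n / 64) : ℝ) ≤ P (n - n / 2) := by
      have f1 : (4 : ℝ) * (n / 64 : ℕ) * Real.log (n / 64 : ℕ) ≤ (n : ℝ) / 16 * Real.log (n - n / 2 : ℕ) :=
        mul_le_mul (by linarith) e5 e6 (by positivity)
      have f2 : (n : ℝ) / 2 * Real.log (n - n / 2 : ℕ) / 2 ≤ ((n - n / 2 : ℕ) : ℝ) * Real.log (n - n / 2 : ℕ) / 2 := by
        have := mul_le_mul_of_nonneg_right e4 (e6.trans e5)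
        linarith
      nlinarith [mul_nonneg hn0.le (e6.trans e5)]
    have e8 : 2 * P (n / 64) ≤ P (n - n / 2) := by exact_mod_cast e7
    have e9 := tg_add (n - n / 2)
    have e10 := Nat.pow_le_pow_left e8 2
    have e11 := P_two_le (n / 64)
    nlinarith
  · intro m hm
    have hm1 : (n : ℝ) / 128 ≤ m := by
      have : n < 128 * (m : ℕ) + 0 + 128 := by omega
      have h5 : n ≤ 128 * m := by omega
      have : (n : ℝ) ≤ 128 * (m : ℝ) := by exact_mod_cast h5
      linarith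
    have e1 : (m : ℝ) * Real.log m / 2 ≤ P m := h2 m (by omega)
    have e2 : (100000 : ℝ) ≤ Real.log m := h4 m (by omega)
    have e3 : (64 : ℝ) * n ≤ P m := by
      have : (n : ℝ) / 128 * 100000 ≤ m * Real.log m := mul_le_mul hm1 e2 (by norm_num) (by positivity)
      linarith
    have e4 : 64 * n ≤ P m := by exact_mod_cast e3
    have e5 : P (64 * n) ≤ P (P m) := P_mono (by omega) e4
    have e6 : ((64 * n : ℕ) : ℝ) * Real.log (64 * n : ℕ) / 2 ≤ P (64 * n) := h2 _ (by omega)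
    have e7 : Real.log n ≤ Real.log (64 * n : ℕ) := by
      apply Real.log_le_log hn0
      push_cast
      linarith
    have e8 : 2 * (P n : ℝ) ≤ P (P m) := by
      have f1 : ((P (64 * n) : ℕ) : ℝ) ≤ P (P m) := by exact_mod_cast e5
      have f2 : (64 : ℝ) * n * Real.log n ≤ ((64 * n : ℕ) : ℝ) * Real.log (64 * n : ℕ) := by
        push_cast at e7 ⊢
        exact mul_le_mul_of_nonneg_left e7 (by positivity)
      have f3 : 0 ≤ (n : ℝ) * Real.log n := by
        have := h4 n (by omega)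
        have : 0 ≤ Real.log (n : ℝ) := by linarith
        positivity
      linarith
    have e9 : 2 * P n ≤ P (P m) := by exact_mod_cast e8
    have e10 := tg_add (P m)
    have e11 := Nat.pow_le_pow_left e9 2
    have e12 : 4 ≤ P n := by
      have := le_P (m := n) (by omega)
      omega
    nlinarith
  · intro m hmn hm1
    have key : ∀ k : ℕ, 1 ≤ k → k ≤ n ^ 2 → P k ≤ n ^ 4 := by
      intro k hk1 hk
      rcases le_or_gt k3 k with h5 | h5
      · calc P k ≤ k ^ 2 := h3 k h5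
          _ ≤ (n ^ 2) ^ 2 := Nat.pow_le_pow_left hk 2
          _ = n ^ 4 := by ring
      · have h6 : P k ≤ P (k3 + 1) := P_mono hk1 (by omega)
        have h7 : P (k3 + 1) ≤ n := by
          have := P_two_le (k3 + 1)
          nlinarith
        exact h6.trans (h7.trans (Nat.le_self_pow (by norm_num) n))
    have h5 : P m ≤ n ^ 2 := by
      rcases le_or_gt k3 m with h5 | h5
      · exact (h3 m h5).trans (Nat.pow_le_pow_left hmn 2)
      · have h6 : P m ≤ P (k3 + 1) := P_mono hm1 (by omega)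
        have h7 : P (k3 + 1) ≤ n := by
          have := P_two_le (k3 + 1)
          nlinarith
        exact h6.trans (h7.trans (Nat.le_self_pow (by norm_num) n))
    have h6 : P m ≤ n ^ 4 := key m hm1 (hmn.trans (Nat.le_self_pow (by norm_num) n))
    have h7 : P (P m) ≤ n ^ 4 := key (P m) (by have := P_two_le m; omega) h5
    have g1 := tg_add m
    have g2 := tg_add (P m)
    have g3 := Nat.pow_le_pow_left h6 2
    have g4 := Nat.pow_le_pow_left h7 2
    have e : (n ^ 4) ^ 2 = n ^ 8 := by ring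
    rw [e] at g3 g4
    constructor <;> omega

end Pool.Agent.T9h55.KU
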