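import Pool.Agent.T9h55.KU.Three
import Pool.Agent.T9h55.KT.ApT
import Pool.Agent.T9h55.RM.LawB

/-! Moved primes and `p_j ^ 2 - 2`: statements of the pieces (helper55). -/

set_option autoImplicit false

namespace Pool.Agent.T9h55.KU

open Finset MeasureTheory ProbabilityTheory Filter Topology
open Pool.Agent.T9h55.KT (pr)
open Pool.Agent.T9h55.RM (P)

universe u

/-- (PU) `p_k ≤ 4 k log k`: from `Pool.Agent.T9h55.KT.primes_ap'` with `M = 1` (`A = D = 0`, `u = 0`, `w = X`):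
`π(X) ≥ X / (2 log X)` for large `X`; `X = P k`, `π (P k) = k` (`RM.pi_P`), `P k ≤ k ^ 2` (`RM.P_le_sq`). -/
def S_PU : Prop := ∀ᶠ k : ℕ in atTop, (P k : ℝ) ≤ 4 * k * Real.log k

/-- (PL) `p_k ≥ k log k / 2`: from `RM.pi_le` at `P k`, `RM.pi_P`, `k ≤ P k`. -/
def S_PL : Prop := ∀ᶠ k : ℕ in atTop, (k : ℝ) * Real.log k / 2 ≤ P k

/-- (HM) the expected number of the moved primes `p + M ξ_p` at `b` is at least `c / log b`.  Proof:
`L = log b`, `u = b - ⌊b / (4 K L ^ A)⌋`; `primes_ap' 1 (A + 1)` at `X = b` gives at least `(b - u) / (2 φ(M) L)` primes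
`p ≡ b mod M` in `(u, b]`, and `b - u ≥ b / (8 K L ^ A)`; for them `(b - p) / M < H p` since `H p ≥ (3 b / 4) / (K L ^ A)`, and
`H p ≤ K b 2 ^ A / L ^ A`, so each has probability at least `L ^ A / (K 2 ^ A b)` to be at `b`.  The other terms are
nonnegative. -/
def S_HM : Prop := ∀ (Ω : Type u) [MeasurableSpace Ω] (μ : Measure Ω) [IsProbabilityMeasure μ] (A K M : ℕ), 1 ≤ K → 1 ≤ M →
  ∀ (H : ℕ → ℕ) (ξ : ℕ → Ω → ℕ),
    (∀ᶠ n : ℕ in atTop, (n : ℝ) / (K * Real.log n ^ A) ≤ H n ∧ (H n : ℝ) ≤ K * n / Real.log n ^ A) →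
    (∀ j, 1 ≤ j → ∀ h < H j, μ.real {ω | ξ j ω = h} = 1 / (H j : ℝ)) →
    ∀ᶠ b : ℕ in atTop, Nat.Coprime b M → ∀ B : Finset ℕ, (∀ p, 3 * b ≤ 4 * p → p ≤ b → p.Prime → p ∈ B) →
      1 / (16 * 2 ^ A * (K : ℝ) ^ 2 * M * Real.log b) ≤ ∑ p ∈ B, pr μ (fun p ω => p + M * ξ p ω) p b

end Pool.Agent.T9h55.KU
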