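import Pool.Agent.T9h55.KT.Two

/-! Independent balls: three stages (helper55). -/

set_option autoImplicit false

namespace Pool.Agent.T9h55.KU

open Finset MeasureTheory ProbabilityTheory
open Pool.Agent.T9h55.KT

variable {Ω : Type*} [MeasurableSpace Ω] {μ : Measure Ω}

lemma hits_sub (ξ : ℕ → Ω → ℕ) (B T : Finset ℕ) (v : ℕ → ℕ → ℕ) (ω : Ω) : hits ξ B T v ω ⊆ T := by
  classical
  unfold hits
  exact filter_subset _ _

/-- the second and third stage depend on the variables of `B2 ∪ B3` only -/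
lemma hits2_meas {ξ : ℕ → Ω → ℕ} (B2 B3 T : Finset ℕ) (v2 v3 : ℕ → ℕ → ℕ) (P : Finset ℕ → Prop) :
    ∃ D : Set ((B2 ∪ B3 : Finset ℕ) → ℕ), {ω | P (hits ξ B3 (hits ξ B2 T v2 ω) v3 ω)} =
      (fun ω (j : (B2 ∪ B3 : Finset ℕ)) => ξ j ω) ⁻¹' D := by
  classical
  refine ⟨{g | P ((T.filter fun t => ∃ j : (B2 ∪ B3 : Finset ℕ), (j : ℕ) ∈ B2 ∧ g j = v2 t j).filter
    fun t => ∃ j : (B2 ∪ B3 : Finset ℕ), (j : ℕ) ∈ B3 ∧ g j = v3 t j)}, ?_⟩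
  ext ω
  simp only [Set.mem_ofPred_eq, Set.mem_preimage]
  have e : hits ξ B3 (hits ξ B2 T v2 ω) v3 ω = (T.filter fun t => ∃ j : (B2 ∪ B3 : Finset ℕ), (j : ℕ) ∈ B2 ∧ ξ j ω = v2 t j).filter
      fun t => ∃ j : (B2 ∪ B3 : Finset ℕ), (j : ℕ) ∈ B3 ∧ ξ j ω = v3 t j := by
    unfold hits
    ext t
    simp only [mem_filter]
    unfold miss
    simp only [Set.mem_ofPred_eq, not_forall, not_not, exists_prop, Subtype.exists]
    constructor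
    · rintro ⟨⟨h1, j, hj, h2⟩, i, hi, h3⟩
      exact ⟨⟨h1, j, mem_union_left _ hj, hj, h2⟩, i, mem_union_right _ hi, hi, h3⟩
    · rintro ⟨⟨h1, j, _, hj, h2⟩, i, _, hi, h3⟩
      exact ⟨⟨h1, j, hj, h2⟩, i, hi, h3⟩
  rw [e]

/-- three stages -/
theorem three_stage [IsProbabilityMeasure μ] {ξ : ℕ → Ω → ℕ} (hm : ∀ j, Measurable (ξ j)) (hi : iIndepFun ξ μ)
    (B1 B2 B3 : Finset ℕ) (h12 : Disjoint B1 B2) (h13 : Disjoint B1 B3) (h23 : Disjoint B2 B3) (T : Finset ℕ)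
    (v1 v2 v3 : ℕ → ℕ → ℕ)
    (hne1 : ∀ t ∈ T, ∀ t' ∈ T, t ≠ t' → ∀ j ∈ B1, v1 t j ≠ v1 t' j)
    (hne2 : ∀ t ∈ T, ∀ t' ∈ T, t ≠ t' → ∀ j ∈ B2, v2 t j ≠ v2 t' j)
    (hne3 : ∀ t ∈ T, ∀ t' ∈ T, t ≠ t' → ∀ j ∈ B3, v3 t j ≠ v3 t' j) {q : ℝ} (hq : 0 ≤ q) (hq1 : q ≤ 1)
    (hl1 : ∀ t ∈ T, q ≤ μ.real (miss ξ B1 (v1 t))ᶜ) (hl2 : ∀ t ∈ T, q ≤ μ.real (miss ξ B2 (v2 t))ᶜ)
    (hl3 : ∀ t ∈ T, q ≤ μ.real (miss ξ B3 (v3 t))ᶜ) :
    μ.real {ω | (#(hits ξ B3 (hits ξ B2 (hits ξ B1 T v1 ω) v2 ω) v3 ω) : ℝ) ≤ #T * q ^ 3 / 8} ≤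
      3 * Real.exp (-(#T * q ^ 3 / 32)) := by
  classical
  set R : Finset (Finset ℕ) := T.powerset.filter fun T' => (#T : ℝ) * q / 2 < #T' with hR
  set F : Finset ℕ → Set Ω := fun T' => {ω | hits ξ B1 T v1 ω = T'} ∩
    {ω | (#(hits ξ B3 (hits ξ B2 T' v2 ω) v3 ω) : ℝ) ≤ #T' * q * q / 4} with hF
  have hT0 : (0 : ℝ) ≤ #T := Nat.cast_nonneg _
  have hq3 : q ^ 3 ≤ q := by
    have : q ^ 3 ≤ q ^ 1 := pow_le_pow_of_le_one hq hq1 (by norm_num)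
    simpa using this
  have hq32 : q ^ 3 ≤ q ^ 2 := pow_le_pow_of_le_one hq hq1 (by norm_num)
  have hsub : {ω | (#(hits ξ B3 (hits ξ B2 (hits ξ B1 T v1 ω) v2 ω) v3 ω) : ℝ) ≤ #T * q ^ 3 / 8} ⊆
      {ω | (#(hits ξ B1 T v1 ω) : ℝ) ≤ #T * q / 2} ∪ ⋃ T' ∈ R, F T' := by
    intro ω hω
    simp only [Set.mem_ofPred_eq] at hω
    by_cases h : (#(hits ξ B1 T v1 ω) : ℝ) ≤ #T * q / 2
    · exact Or.inl h
    · right
      push Not at h
      simp only [Set.mem_iUnion]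
      refine ⟨hits ξ B1 T v1 ω, ?_, ?_⟩
      · rw [hR, mem_filter, mem_powerset]
        exact ⟨hits_sub _ _ _ _ _, h⟩
      · simp only [hF, Set.mem_inter_iff, Set.mem_ofPred_eq, true_and]
        refine hω.trans ?_
        have := mul_le_mul_of_nonneg_right h.le (show 0 ≤ q * q / 4 by positivity)
        nlinarith
  have h1 : μ.real {ω | (#(hits ξ B1 T v1 ω) : ℝ) ≤ #T * q / 2} ≤ Real.exp (-(#T * q ^ 3 / 32)) := by
    have hQ : #T * q ≤ ∑ t ∈ T, μ.real (miss ξ B1 (v1 t))ᶜ := by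
      have := Finset.sum_le_sum hl1
      rwa [Finset.sum_const, nsmul_eq_mul] at this
    refine (hit_chern hm hi B1 T v1 hne1 (by positivity) hQ).trans (Real.exp_le_exp.2 ?_)
    have := mul_le_mul_of_nonneg_left hq3 hT0
    nlinarith [mul_nonneg hT0 hq]
  have h2 : ∀ T' ∈ R, μ.real (F T') ≤ μ.real {ω | hits ξ B1 T v1 ω = T'} * (2 * Real.exp (-(#T * q ^ 3 / 32))) := by
    intro T' hT'
    rw [hR, mem_filter, mem_powerset] at hT'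
    obtain ⟨hT1, hT2⟩ := hT'
    obtain ⟨D1, hD1⟩ := hits_meas (ξ := ξ) B1 T v1 (fun S => S = T')
    obtain ⟨D2, hD2⟩ := hits2_meas (ξ := ξ) B2 B3 T' v2 v3 (fun S => (#S : ℝ) ≤ #T' * q * q / 4)
    have hind := hi.indepFun_finset B1 (B2 ∪ B3) (disjoint_union_right.2 ⟨h12, h13⟩) hm
    have h3 := hind.measure_inter_preimage_eq_mul D1 D2 MeasurableSet.of_discrete MeasurableSet.of_discrete
    have h4 : μ.real (F T') = μ.real {ω | hits ξ B1 T v1 ω = T'} *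
        μ.real {ω | (#(hits ξ B3 (hits ξ B2 T' v2 ω) v3 ω) : ℝ) ≤ #T' * q * q / 4} := by
      simp only [hF]
      rw [hD1, hD2]
      unfold Measure.real
      rw [h3, ENNReal.toReal_mul]
    rw [h4]
    apply mul_le_mul_of_nonneg_left _ measureReal_nonneg
    have h5 := two_stage hm hi B2 B3 h23 T' v2 v3 (fun t ht t' ht' => hne2 t (hT1 ht) t' (hT1 ht'))
      (fun t ht t' ht' => hne3 t (hT1 ht) t' (hT1 ht')) hq hq (fun t ht => hl2 t (hT1 ht)) (fun t ht => hl3 t (hT1 ht))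
    refine h5.trans ?_
    have h6 : (#T : ℝ) * q ^ 3 / 32 ≤ #T' * q / 8 := by
      have h7 := mul_le_mul_of_nonneg_right hT2.le (show 0 ≤ q / 8 by positivity)
      have h8 := mul_le_mul_of_nonneg_left hq32 hT0
      nlinarith [mul_nonneg hT0 (sq_nonneg q)]
    have h7 : (#T : ℝ) * q ^ 3 / 32 ≤ #T' * q * q / 16 := by
      have h7 := mul_le_mul_of_nonneg_right hT2.le (show 0 ≤ q * q / 16 by positivity)
      nlinarith
    have h8 := Real.exp_le_exp.2 (neg_le_neg h6)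
    have h9 := Real.exp_le_exp.2 (neg_le_neg h7)
    linarith
  have h3 : μ.real (⋃ T' ∈ R, F T') ≤ 2 * Real.exp (-(#T * q ^ 3 / 32)) := by
    refine (measureReal_biUnion_finset_le R F).trans ((Finset.sum_le_sum h2).trans ?_)
    rw [← Finset.sum_mul]
    have h4 : ∑ T' ∈ R, μ.real {ω | hits ξ B1 T v1 ω = T'} ≤ 1 := by
      rw [← measureReal_biUnion_finset]
      · exact measureReal_le_one
      · intro S _ S' _ hSS
        rw [Function.onFun, Set.disjoint_left]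
        intro ω h5 h6
        simp only [Set.mem_ofPred_eq] at h5 h6
        exact hSS (h5.symm.trans h6)
      · intro S _
        exact hits_meas' hm B1 T v1 (fun S' => S' = S)
    have h5 : 0 ≤ 2 * Real.exp (-(#T * q ^ 3 / 32)) := by positivity
    calc (∑ T' ∈ R, μ.real {ω | hits ξ B1 T v1 ω = T'}) * (2 * Real.exp (-(#T * q ^ 3 / 32))) ≤
        1 * (2 * Real.exp (-(#T * q ^ 3 / 32))) := mul_le_mul_of_nonneg_right h4 h5
      _ = _ := one_mul _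
  calc μ.real {ω | (#(hits ξ B3 (hits ξ B2 (hits ξ B1 T v1 ω) v2 ω) v3 ω) : ℝ) ≤ #T * q ^ 3 / 8} ≤
      μ.real ({ω | (#(hits ξ B1 T v1 ω) : ℝ) ≤ #T * q / 2} ∪ ⋃ T' ∈ R, F T') := measureReal_mono hsub (measure_ne_top μ _)
    _ ≤ μ.real {ω | (#(hits ξ B1 T v1 ω) : ℝ) ≤ #T * q / 2} + μ.real (⋃ T' ∈ R, F T') := measureReal_union_le _ _
    _ ≤ _ := by linarith

end Pool.Agent.T9h55.KU
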